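import Mathlib
import Pool.Agent.helper74.VDI.SpecA
import Pool.Agent.helper5.VD.FND

/-!
# Row CFF of project INF (MP_07c750_an): conformal families are smooth families
-/

set_option autoImplicit false

open scoped ContDiff Topology InnerProductSpace ENNReal ComplexConjugate
open MeasureTheory Filter Set

namespace Pool.Agent.VDI

open Pool.Agent.RPQ (PN PJ UN upd)
open Pool.Agent.VQ (CH rk)
open Pool.Agent.VN (aN)
open Pool.Agent.VD
open Pool.Agent.VDE (UWLD FDX)

noncomputable section

theorem CFF_proof : CFF_stmt := by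
  intro d Γ _ _ m Gs hC
  obtain ⟨G0, hs, hG, hI, hh, rfl⟩ := hC
  refine ⟨?_, ?_, ?_⟩
  · have h1 : ContDiff ℝ ∞ fun q : V m × V d => ∑ a, q.1 a * hs a q.2 := by
      apply ContDiff.sum
      intro a _
      have h2 : ContDiff ℝ ∞ fun q : V m × V d => q.1 a :=
        ((EuclideanSpace.proj (𝕜 := ℝ) a).contDiff).comp contDiff_fst
      exact h2.mul ((hh a).1.comp contDiff_snd)
    exact h1.exp.smul (hG.smooth.comp contDiff_snd)
  · intro s
    refine FND_met ?_ hG
    apply ContDiff.sum
    intro a _
    exact contDiff_const.mul (hh a).1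
  · intro s
    apply FNWE_iso hI
    intro γ x
    show ∑ a, s a * hs a (γ • x) = ∑ a, s a * hs a x
    apply Finset.sum_congr rfl
    intro a _
    rw [(hh a).2 γ x]

end

end Pool.Agent.VDI
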